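import Pool.Agent.R579.Gabor

set_option autoImplicit false

namespace Pool.Agent.Results.MP_fbf723_an.SameForBoth

open Pool.Agent.R579.Orbit

/-- For an overcomplete Gabor frame, a bounded representation indexed by the naturals or by the
integers gives one for both index sets (in fact neither exists). -/
theorem result (a b : ℝ) (g : L2R) (hframe : IsFrame (gabor a b g))
    (hover : ¬ IsRieszBasis (gabor a b g))
    (h : (∃ σ : ℕ ≃ ℤ × ℤ, BddShift (fun k : ℕ => k + 1) (gabor a b g ∘ σ)) ∨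
      (∃ σ : ℤ ≃ ℤ × ℤ, BddShift (fun k : ℤ => k + 1) (gabor a b g ∘ σ))) :
    (∃ σ : ℕ ≃ ℤ × ℤ, BddShift (fun k : ℕ => k + 1) (gabor a b g ∘ σ)) ∧
      (∃ σ : ℤ ≃ ℤ × ℤ, BddShift (fun k : ℤ => k + 1) (gabor a b g ∘ σ)) := by
  rcases h with ⟨σ, hσ⟩ | ⟨σ, hσ⟩
  · exact absurd hσ (gabor_N a b g hframe hover σ)
  · exact absurd hσ (gabor_Z a b g hframe hover σ)

end Pool.Agent.Results.MP_fbf723_an.SameForBoth
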